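import Pool.Agent.N909.CL.Def

/-! # Random Collatz maps: the product of the weights at different positions has mean one -/

set_option autoImplicit false
set_option linter.unusedSectionVars false

open MeasureTheory Filter Set
open scoped ENNReal Topology

namespace Pool.Agent.N196.CL

open Pool.Agent.R528.RM Pool.Agent.N909.CM Pool.Agent.N909.CL

section

variable {Ω : Type} {m0 : MeasurableSpace Ω} {μ : Measure Ω} [IsProbabilityMeasure μ]
  {ℱ : Filtration ℕ m0} {B : ℕ → Set Ω}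

lemma y_true (p : ℕ) (ω : Ω) : y μ ℱ B true p ω =
    (B p).indicator (fun _ => (1 : ℝ)) ω / dens μ ℱ B (p - 1) ω := by
  by_cases hω : ω ∈ B p <;> simp [y, hω]

lemma y_false (p : ℕ) (ω : Ω) : y μ ℱ B false p ω =
    (1 - (B p).indicator (fun _ => (1 : ℝ)) ω) / (1 - dens μ ℱ B (p - 1) ω) := by
  by_cases hω : ω ∈ B p <;> simp [y, hω]

lemma y_meas (hB : ∀ n, MeasurableSet[ℱ n] (B n)) (d : Bool) (p : ℕ) :
    Measurable[ℱ p] (y μ ℱ B d p) := by
  have h1 : Measurable[ℱ p] (dens μ ℱ B (p - 1)) :=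
    (dens_meas (p - 1)).measurable.mono (ℱ.mono (Nat.sub_le p 1)) le_rfl
  have h2 : Measurable[ℱ p] ((B p).indicator (fun _ => (1 : ℝ))) :=
    measurable_const.indicator (hB p)
  cases d
  · have : y μ ℱ B false p = fun ω =>
        (1 - (B p).indicator (fun _ => (1 : ℝ)) ω) / (1 - dens μ ℱ B (p - 1) ω) :=
      funext fun ω => y_false p ω
    rw [this]
    exact (measurable_const.sub h2).div (measurable_const.sub h1)
  · have : y μ ℱ B true p = fun ω =>
        (B p).indicator (fun _ => (1 : ℝ)) ω / dens μ ℱ B (p - 1) ω :=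
      funext fun ω => y_true p ω
    rw [this]
    exact h2.div h1

lemma ind_le (p : ℕ) (ω : Ω) : 0 ≤ (B p).indicator (fun _ => (1 : ℝ)) ω ∧
    (B p).indicator (fun _ => (1 : ℝ)) ω ≤ 1 := by
  by_cases hω : ω ∈ B p <;> simp [hω]

lemma y_le {η : ℝ} (hη : η < 1 / 2) {p : ℕ} {ω : Ω}
    (h : |dens μ ℱ B (p - 1) ω - 1 / 2| ≤ η) (d : Bool) :
    |y μ ℱ B d p ω| ≤ 1 / (1 / 2 - η) := by
  obtain ⟨h1, h2⟩ := abs_le.1 h
  obtain ⟨h3, h4⟩ := ind_le (B := B) p ω
  have h5 : 0 < 1 / 2 - η := by linarith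
  cases d
  · rw [y_false, abs_div, abs_of_nonneg (by linarith), abs_of_pos (by linarith)]
    exact div_le_div₀ zero_le_one (by linarith) h5 (by linarith)
  · rw [y_true, abs_div, abs_of_nonneg h3, abs_of_pos (by linarith)]
    exact div_le_div₀ zero_le_one h4 h5 (by linarith)

lemma ind_int (hB : ∀ n, MeasurableSet[ℱ n] (B n)) {p : ℕ} (hp : 0 < p) {g : Ω → ℝ}
    (hg : StronglyMeasurable[ℱ (p - 1)] g) (hgi : Integrable g μ) :
    Integrable (fun ω => g ω * (B p).indicator (fun _ => (1 : ℝ)) ω) μ ∧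
    ∫ ω, g ω * (B p).indicator (fun _ => (1 : ℝ)) ω ∂μ = ∫ ω, g ω * dens μ ℱ B (p - 1) ω ∂μ := by
  have hB' : MeasurableSet (B p) := ℱ.le p _ (hB p)
  obtain ⟨I, hI⟩ : ∃ I, I = (B p).indicator (fun _ => (1 : ℝ)) := ⟨_, rfl⟩
  have hIi : Integrable I μ := by
    rw [hI]
    exact (integrable_const (1 : ℝ)).indicator hB'
  have hgI : Integrable (g * I) μ := by
    have : g * I = (B p).indicator g := by
      funext ω
      rw [hI]
      by_cases hω : ω ∈ B p <;> simp [hω]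
    rw [this]
    exact hgi.indicator hB'
  have hP : dens μ ℱ B (p - 1) = μ[I | ℱ (p - 1)] := by
    unfold dens
    rw [Nat.sub_add_cancel hp, hI]
  have h1 : μ[g * I | ℱ (p - 1)] =ᵐ[μ] g * μ[I | ℱ (p - 1)] :=
    condExp_mul_of_stronglyMeasurable_left hg hgI hIi
  rw [← hI]
  refine ⟨hgI, ?_⟩
  calc ∫ ω, g ω * I ω ∂μ = ∫ ω, (g * I) ω ∂μ := rfl
    _ = ∫ ω, (μ[g * I | ℱ (p - 1)]) ω ∂μ := (integral_condExp (ℱ.le _)).symm
    _ = ∫ ω, (g * μ[I | ℱ (p - 1)]) ω ∂μ := integral_congr_ae h1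
    _ = ∫ ω, g ω * dens μ ℱ B (p - 1) ω ∂μ := by rw [hP]; rfl

lemma key (hB : ∀ n, MeasurableSet[ℱ n] (B n)) {p : ℕ} (hp : 0 < p) {η : ℝ} (hη : η < 1 / 2)
    (hP : ∀ᵐ ω ∂μ, |dens μ ℱ B (p - 1) ω - 1 / 2| ≤ η) {C : Ω → ℝ} (hC : Measurable[ℱ (p - 1)] C)
    {M : ℝ} (hM : ∀ᵐ ω ∂μ, |C ω| ≤ M) (d : Bool) :
    ∫ ω, C ω * y μ ℱ B d p ω ∂μ = ∫ ω, C ω ∂μ := by
  have hPm : Measurable[ℱ (p - 1)] (dens μ ℱ B (p - 1)) := (dens_meas (p - 1)).measurable
  have h5 : 0 < 1 / 2 - η := by linarith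
  have hint : ∀ (D : Ω → ℝ), Measurable[ℱ (p - 1)] D → (∀ᵐ ω ∂μ, 1 / 2 - η ≤ D ω) →
      Integrable (fun ω => C ω / D ω) μ := by
    intro D hD1 hD2
    refine Integrable.of_bound ((hC.div hD1).mono (ℱ.le _) le_rfl).aestronglyMeasurable
      (M * (1 / (1 / 2 - η))) ?_
    filter_upwards [hM, hD2] with ω h1 h2
    rw [Real.norm_eq_abs, abs_div, abs_of_pos (by linarith : 0 < D ω), div_eq_mul_one_div]
    exact mul_le_mul h1 (one_div_le_one_div_of_le h5 h2) (one_div_pos.2 (by linarith)).le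
      ((abs_nonneg _).trans h1)
  cases d
  · have hD2 : ∀ᵐ ω ∂μ, 1 / 2 - η ≤ 1 - dens μ ℱ B (p - 1) ω := by
      filter_upwards [hP] with ω h
      linarith [(abs_le.1 h).2]
    have hD1 : Measurable[ℱ (p - 1)] (fun ω => 1 - dens μ ℱ B (p - 1) ω) :=
      measurable_const.sub hPm
    have hgi := hint _ hD1 hD2
    obtain ⟨g, hg⟩ : ∃ g : Ω → ℝ, g = fun ω => C ω / (1 - dens μ ℱ B (p - 1) ω) := ⟨_, rfl⟩
    have hgm : StronglyMeasurable[ℱ (p - 1)] g := by
      rw [hg]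
      exact (hC.div hD1).stronglyMeasurable
    rw [← hg] at hgi
    obtain ⟨h1, h2⟩ := ind_int (μ := μ) hB hp hgm hgi
    have h3 : ∫ ω, C ω * y μ ℱ B false p ω ∂μ =
        ∫ ω, (g ω - g ω * (B p).indicator (fun _ => (1 : ℝ)) ω) ∂μ := by
      refine integral_congr_ae (ae_of_all _ fun ω => ?_)
      simp only [y_false, hg]
      ring
    have h4 : Integrable (fun ω => g ω * dens μ ℱ B (p - 1) ω) μ := by
      refine (hgi.norm.mul_const 1).mono' ((hgm.measurable.mul hPm).mono (ℱ.le _)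
        le_rfl).aestronglyMeasurable ?_
      filter_upwards [hP] with ω h
      obtain ⟨h6, h7⟩ := abs_le.1 h
      rw [norm_mul, Real.norm_eq_abs (dens μ ℱ B (p - 1) ω)]
      refine mul_le_mul_of_nonneg_left ?_ (norm_nonneg _)
      rw [abs_le]
      constructor <;> linarith
    rw [h3, integral_sub hgi h1, h2, ← integral_sub hgi h4]
    refine integral_congr_ae ?_
    filter_upwards [hD2] with ω h
    have h6 : 1 - dens μ ℱ B (p - 1) ω ≠ 0 := by linarith
    simp only [hg]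
    field_simp
  · have hD2 : ∀ᵐ ω ∂μ, 1 / 2 - η ≤ dens μ ℱ B (p - 1) ω := by
      filter_upwards [hP] with ω h
      linarith [(abs_le.1 h).1]
    have hgi := hint _ hPm hD2
    obtain ⟨g, hg⟩ : ∃ g : Ω → ℝ, g = fun ω => C ω / dens μ ℱ B (p - 1) ω := ⟨_, rfl⟩
    have hgm : StronglyMeasurable[ℱ (p - 1)] g := by
      rw [hg]
      exact (hC.div hPm).stronglyMeasurable
    rw [← hg] at hgi
    obtain ⟨h1, h2⟩ := ind_int (μ := μ) hB hp hgm hgi
    have h3 : ∫ ω, C ω * y μ ℱ B true p ω ∂μ =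
        ∫ ω, g ω * (B p).indicator (fun _ => (1 : ℝ)) ω ∂μ := by
      refine integral_congr_ae (ae_of_all _ fun ω => ?_)
      simp only [y_true, hg]
      ring
    rw [h3, h2]
    refine integral_congr_ae ?_
    filter_upwards [hD2] with ω h
    have h6 : dens μ ℱ B (p - 1) ω ≠ 0 := by linarith
    simp only [hg]
    field_simp

end

theorem t : StmA := by
  intro Ω m0 μ _ ℱ B hB K η hη0 hη hK F d
  have hbound : ∀ F : Finset ℕ, (∀ p ∈ F, K < p) →
      ∀ᵐ ω ∂μ, |∏ p ∈ F, y μ ℱ B (d p) p ω| ≤ (1 / (1 / 2 - η)) ^ F.card := by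
    intro F hF
    have h1 : ∀ᵐ ω ∂μ, ∀ p ∈ F, |dens μ ℱ B (p - 1) ω - 1 / 2| ≤ η :=
      (Finset.eventually_all F).2 fun p hp => hK (p - 1) (by have := hF p hp; omega)
    filter_upwards [h1] with ω h
    rw [Finset.abs_prod, ← Finset.prod_const]
    exact Finset.prod_le_prod (fun p _ => abs_nonneg _) fun p hp => y_le hη (h p hp) _
  have hmeas : ∀ (F : Finset ℕ) (n : ℕ), (∀ p ∈ F, p ≤ n) →
      Measurable[ℱ n] (fun ω => ∏ p ∈ F, y μ ℱ B (d p) p ω) := by
    intro F n hF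
    exact Finset.measurable_prod _ fun p hp => (y_meas hB (d p) p).mono (ℱ.mono (hF p hp)) le_rfl
  have hint : ∀ F : Finset ℕ, (∀ p ∈ F, K < p) →
      Integrable (fun ω => ∏ p ∈ F, y μ ℱ B (d p) p ω) μ := by
    intro F hF
    exact Integrable.of_bound ((hmeas F (F.sup id) fun p hp => Finset.le_sup (f := id) hp).mono
      (ℱ.le _) le_rfl).aestronglyMeasurable _ (hbound F hF)
  intro hF
  refine ⟨hint F hF, ?_⟩
  induction F using Finset.induction_on_max with
  | empty => simp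
  | insert p F hmax ih =>
    have hp : K < p := hF p (Finset.mem_insert_self _ _)
    have hF' : ∀ q ∈ F, K < q := fun q hq => hF q (Finset.mem_insert_of_mem hq)
    have hnot : p ∉ F := fun h => lt_irrefl _ (hmax p h)
    have h1 := key (μ := μ) hB (p := p) (by omega) hη (hK (p - 1) (by omega))
      (hmeas F (p - 1) fun q hq => by have := hmax q hq; omega) (hbound F hF') (d p)
    rw [← ih hF', ← h1]
    refine integral_congr_ae (ae_of_all _ fun ω => ?_)
    simp only [Finset.prod_insert hnot]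
    ring

end Pool.Agent.N196.CL
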